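import Pool.Agent.PCO.StmtsA

/-!
# PCO squad: the row BXC (boxes in the language of PFJ)
-/

set_option autoImplicit false

open Matrix Filter Topology

namespace Pool.Agent.PCO.H75

open Pool.Agent.PFS Pool.Agent.PFJ Pool.Agent.PCO

theorem bxc : BxcStmt := by
  intro n C Γ h U v
  refine ⟨?_, ?_⟩
  · intro hb e he e' he' hp
    have hv : v ∈ LamC C Γ := hp.2 2
    have hvc : v ∈ closure C := h.hul.lamCl v hv
    refine
      { pes := hp
        mem := ?_
        comp := ?_
        bot := ?_
        one := ?_
        two := ?_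
        three := ?_ }
    · intro i
      fin_cases i
      · exact he
      · exact he'
      · exact Submodule.mem_span_singleton_self v
    · intro x hx hs
      have h0 : x 0 ∈ U := hx 0
      have h1 : x 1 ∈ Submodule.span ℝ {v} := hx 1
      have h2 : x 2 ∈ (⊥ : Submodule ℝ (V n)) := hx 2
      rw [Submodule.mem_bot] at h2
      obtain ⟨τ, hτ⟩ := Submodule.mem_span_singleton.1 h1
      rw [Fin.sum_univ_three, h2, add_zero, ← hτ] at hs
      obtain ⟨h3, h4⟩ := hb.comp (x 0) h0 τ hs
      intro a
      fin_cases a
      · exact h3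
      · show x 1 ∈ closure C
        rw [← hτ]
        exact h.cl_smul hvc h4
      · show x 2 ∈ closure C
        rw [h2]
        exact h.zero_cl
    · intro a ha
      fin_cases a
      · exact absurd rfl (ha 0)
      · exact absurd rfl (ha 2)
      · rfl
    · intro i hi
      fin_cases i
      · exact absurd (hi 1 rfl) (by decide)
      · exact absurd (hi 0 rfl) (by decide)
      · intro x hx
        have h1 : x ∈ Submodule.span ℝ {v} := hx
        obtain ⟨τ, hτ⟩ := Submodule.mem_span_singleton.1 h1
        exact ⟨τ, hτ.symm⟩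
    · intro i j hij hβ
      have key : ∀ i j : Fin 3, i ≠ j → bB i = bB j → bB i = 0 := by
        unfold bB
        decide
      rw [key i j hij hβ]
      exact hb.dim
    · unfold bB
      decide
  · intro L w hb
    have hw2 : w 2 ∈ LamC C Γ := hb.pes.2 2
    have hw2c : w 2 ∈ closure C := h.hul.lamCl _ hw2
    have hw : ![w 0, w 1, w 2] = w := by
      funext i
      fin_cases i <;> rfl
    refine ⟨hb.two 0 1 (by decide) rfl, ⟨w 0, hb.mem 0, w 1, hb.mem 1, ?_⟩, ?_⟩
    · rw [hw]
      exact hb.pes
    · intro y hy τ hτ
      have h1 := hb.comp ![y, τ • w 2, 0] (by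
        intro a
        fin_cases a
        · exact hy
        · exact (L 1).smul_mem τ (hb.mem 2)
        · exact (L 2).zero_mem) (by
        rw [Fin.sum_univ_three]
        show y + τ • w 2 + 0 ∈ closure C
        rw [add_zero]
        exact hτ)
      refine ⟨h1 0, ?_⟩
      by_contra hneg
      push Not at hneg
      have h2 : τ • w 2 ∈ closure C := h1 1
      have h3 := h.cl_smul h2 (t := (-τ)⁻¹) (inv_nonneg.2 (by linarith))
      have h4 : (-τ)⁻¹ • (τ • w 2) = - w 2 := by
        rw [smul_smul, inv_neg, neg_mul, inv_mul_cancel₀ hneg.ne, neg_smul, one_smul]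
      rw [h4] at h3
      exact h.hul.lamNe _ hw2 (h.salient _ hw2c h3)

end Pool.Agent.PCO.H75
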